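import Pool.Agent.Zk14.Bar.Main

/-!
# Turán's (3,4)-problem: the semidefinite method never proves the value 5/9

A *flag certificate* of order `N` is a family of positive semidefinite matrices `Q s m`, one for
every number `s` of labelled roots and every number `m` of further vertices, with rows and columns
indexed by the 3-graphs on `s + m` vertices. It proves the bound `lam` if for every tetrahedron-free
3-graph `H` on `N` vertices the edge density of `H` plus the averages of `Q s m F F'` over the
pairs `(F, F')` of rooted sub-3-graphs of `H` which overlap exactly in their roots is at most `lam`.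
These are the certificates which the flag algebra method (semidefinite programming, Cauchy-Schwarz)
looks for; the records for the Turán density of the tetrahedron since 2007 come from them.
They are sound (theorem `soundness` below): if a certificate of order `N` proves `lam`, then every
tetrahedron-free 3-graph on `n` vertices has at most `lam * n ^ 3 / 6` edges, for every `n`; so the
Turán density of the tetrahedron is at most `lam`.

We prove that for every order `N` there is an `ε > 0` such that `lam ≥ 5 / 9 + ε` for every
certificate of order `N` which proves `lam`. So no such certificate, of any order, proves Turán's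
value `5 / 9`, and the best bound of each order is strictly larger than `5 / 9`. This holds even
if the inequality is only required for the tetrahedron-free 3-graphs `H` which arise by
Fon-der-Flaass's construction from an orientation of a complete tripartite graph (for which the
bound `5 / 9` is true).

The proof compares a curve of weighted Fon-der-Flaass patterns with 9 blocks of density
`5 / 9 - c t ^ 3` with three curves of patterns of density exactly `5 / 9`. All finite parts of the
first curve are parts of the last ones, and its flag densities agree with theirs so well (to first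
order in `t` at the roots which contain at most one small block) that the squares of a
certificate for `5 / 9` would be `O(t ^ 4)` on it.
-/

set_option autoImplicit false
open Finset

namespace Pool.Agent.Results.MP_466853_co.FlagAlgebraBarrier

/-- The hypergraphs on `s` labelled roots and `m` further vertices. -/
abbrev Flag (s m : ℕ) : Type := Finset (Finset (Fin s ⊕ Fin m))

/-- All the matrices `Q s m` are positive semidefinite. -/
def IsPSD (Q : (s m : ℕ) → Flag s m → Flag s m → ℝ) : Prop :=
  ∀ (s m : ℕ) (x : Flag s m → ℝ), 0 ≤ ∑ F, ∑ F', Q s m F F' * x F * x F'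

/-- The hypergraph on `U` which the map `g` reads off from `H`: a set `e` is an edge if its image
is an edge of `H`. -/
def pull {U V : Type} [Fintype U] [DecidableEq U] [DecidableEq V] (g : U → V)
    (H : Finset (Finset V)) : Finset (Finset U) :=
  univ.filter fun e => e.image g ∈ H

/-- The roots and the first `m` of the `m + m` further vertices. -/
def lft (s m : ℕ) : Fin s ⊕ Fin m → Fin s ⊕ (Fin m ⊕ Fin m) := Sum.map id Sum.inl

/-- The roots and the last `m` of the `m + m` further vertices. -/
def rgt (s m : ℕ) : Fin s ⊕ Fin m → Fin s ⊕ (Fin m ⊕ Fin m) := Sum.map id Sum.inr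

/-- The average of `Q s m F F'` over all placements (injections `g`) of the roots and of two
disjoint sets of `m` further vertices in `H`, where `F` and `F'` are the 3-graphs induced on the
roots together with the first, respectively the second, set. (It is `0` if `s + 2 m > N`.) -/
noncomputable def square {N : ℕ} (Q : (s m : ℕ) → Flag s m → Flag s m → ℝ)
    (H : Finset (Finset (Fin N))) (s m : ℕ) : ℝ :=
  (∑ g : Fin s ⊕ (Fin m ⊕ Fin m) ↪ Fin N,
      Q s m (pull (g ∘ lft s m) H) (pull (g ∘ rgt s m) H)) /
    (Fintype.card (Fin s ⊕ (Fin m ⊕ Fin m) ↪ Fin N) : ℝ)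

/-- The edge density of `H` plus all the averages. -/
noncomputable def value {N : ℕ} (Q : (s m : ℕ) → Flag s m → Flag s m → ℝ)
    (H : Finset (Finset (Fin N))) : ℝ :=
  (H.card : ℝ) / (N.choose 3 : ℝ) +
    ∑ s ∈ range (N + 1), ∑ m ∈ range (N + 1), square Q H s m

/-- `H` is a 3-graph. -/
def IsThreeGraph {n : ℕ} (H : Finset (Finset (Fin n))) : Prop := ∀ e ∈ H, e.card = 3

/-- `H` is tetrahedron-free: every four vertices contain a triple which is not an edge. -/
def TetraFree {n : ℕ} (H : Finset (Finset (Fin n))) : Prop :=
  ∀ K : Finset (Fin n), K.card = 4 → ∃ e, e ⊆ K ∧ e.card = 3 ∧ e ∉ H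

/-- `H` arises by Fon-der-Flaass's construction from an orientation `R` of a complete tripartite
graph with the classes `c`: the edges are the triples which are not inside a class and in which no
vertex sends arcs to both others. -/
def FonDerFlaass {n : ℕ} (H : Finset (Finset (Fin n))) : Prop :=
  ∃ (c : Fin n → Fin 3) (R : Fin n → Fin n → Prop),
    (∀ x y, c x ≠ c y → (R x y ↔ ¬ R y x)) ∧ (∀ x y, c x = c y → ¬ R x y) ∧
    ∀ e : Finset (Fin n), e ∈ H ↔ e.card = 3 ∧ (∃ x ∈ e, ∃ y ∈ e, c x ≠ c y) ∧
      ∀ x ∈ e, ∃ y ∈ e, y ≠ x ∧ ¬ R x y

/-- Certificates are sound (not part of the result, but it shows that the definitions are the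
right ones). -/
theorem soundness (N : ℕ) (hN : 3 ≤ N) (Q : (s m : ℕ) → Flag s m → Flag s m → ℝ) (hQ : IsPSD Q)
    (lam : ℝ)
    (h : ∀ H : Finset (Finset (Fin N)), IsThreeGraph H → TetraFree H → value Q H ≤ lam)
    (n : ℕ) (H : Finset (Finset (Fin n))) (h3 : IsThreeGraph H) (hH : TetraFree H) :
    (6 * H.card : ℝ) ≤ lam * (n : ℝ) ^ 3 :=
  Pool.Agent.Zk14.Bar.sound hN hQ h H h3 hH

theorem result (N : ℕ) (hN : 3 ≤ N) :
    ∃ ε : ℝ, 0 < ε ∧ ∀ Q : (s m : ℕ) → Flag s m → Flag s m → ℝ, IsPSD Q → ∀ lam : ℝ,
      (∀ H : Finset (Finset (Fin N)), IsThreeGraph H → TetraFree H → FonDerFlaass H →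
        value Q H ≤ lam) →
      5 / 9 + ε ≤ lam := by
  obtain ⟨ε, hε, h⟩ := Pool.Agent.Zk14.Bar.barrier N hN
  exact ⟨ε, hε, fun Q hQ lam hv => h Q hQ lam hv⟩

end Pool.Agent.Results.MP_466853_co.FlagAlgebraBarrier
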