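import Pool.Agent.Zk14.ID.Sharp

/-!
# Turán's (3,4)-problem: coverings given by mixed colourings

Every pair of `n` vertices is either joined by an arc or an undirected pair. The arcs are coloured,
and the undirected pairs are coloured, with any number of colours. A triple is *monochromatic* if
its three pairs are undirected and have the same colour, or if one of its vertices sends arcs of the
same colour to the other two. We prove that a 3-graph `T` which contains all monochromatic triples
has at least as many edges as Turán's construction, for every `n`, if every four vertices contain a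
monochromatic triple.

With undirected pairs inside the classes of a partition and arcs between the classes, all of one
colour, this contains the Fon-der-Flaass coverings of all orientations of complete multipartite
graphs, hence the examples of Turán, Brown and Kostochka. With one colour, for an arbitrary oriented
graph, the monochromatic triples are the triples of pairwise non-adjacent vertices and the triples
with a vertex which dominates the other two.

Outline. Let `E` be the graph of the undirected pairs of one colour. If `a, b, c, d` is an induced
path of `E`, then a monochromatic triple in `{a, b, c, d}` can only be given by arcs from `a` to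
`c, d` or from `d` to `a, b`. In an induced cycle of `E` with at least five vertices it follows that
all these arcs go the same way around, that is (up to reflection) from each vertex to the second and
third next ones. Then, by induction on `j`, each vertex sends an arc to the `j`-th next vertex, for
all `j` from 2 to `k - 2`, where `k` is the length of the cycle, because the four vertices `i`,
`i + 1`, `i + 2`, `i + j + 1` contain a monochromatic triple. This is absurd, as `i → i + k - 2` and
`i + k - 2 → i + k = i`. Cycles with four vertices are excluded directly. So `E` is chordal, and by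
Dirac's theorem it has a perfect elimination order. If the undirected pairs of each colour are
oriented by such an order for this colour, then the monochromatic triples are exactly the triples
with two arcs of the same colour from one vertex in an arc-coloured tournament, and the theorem on
arc-coloured tournaments (starting file) applies.
-/

set_option autoImplicit false
open Finset
open scoped Classical

namespace Pool.Agent.Results.MP_466853_co.MixedColourings

/-- `R` is (the arc relation of) an oriented graph: no loops, and at most one arc between two
vertices. -/
def IsOriented {n : ℕ} (R : Fin n → Fin n → Prop) : Prop := ∀ x y, R x y → ¬ R y x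

/-- The triple `s` is monochromatic: either there are no arcs of `R` inside `s` and its three pairs
have the same colour `und x y`, or one vertex `x` of `s` sends arcs to the other two which have the
same colour `col x y = col x z`. -/
def Mono {n : ℕ} (R : Fin n → Fin n → Prop) (col und : Fin n → Fin n → ℕ)
    (s : Finset (Fin n)) : Prop :=
  (∃ i, ∀ x ∈ s, ∀ y ∈ s, x ≠ y → ¬ R x y ∧ und x y = i) ∨
  ∃ x ∈ s, ∃ y ∈ s, ∃ z ∈ s, y ≠ z ∧ R x y ∧ R x z ∧ col x y = col x z

/-- Every four vertices contain a monochromatic triple. -/
def Covers {n : ℕ} (R : Fin n → Fin n → Prop) (col und : Fin n → Fin n → ℕ) : Prop :=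
  ∀ Q : Finset (Fin n), Q.card = 4 → ∃ s ⊆ Q, s.card = 3 ∧ Mono R col und s

/-- Turán's number `t(n)`, the number of edges of Turán's construction: `t(3s) = s(s-1)(2s-1)`,
`t(3s+1) = s^2(2s-1)`, `t(3s+2) = s^2(2s+1)`. -/
def turan (n : ℕ) : ℕ :=
  if n % 3 = 0 then (n / 3) * (n / 3 - 1) * (2 * (n / 3) - 1)
  else if n % 3 = 1 then (n / 3) ^ 2 * (2 * (n / 3) - 1)
  else (n / 3) ^ 2 * (2 * (n / 3) + 1)

/-- **Turán's bound for mixed colourings**, exact for every `n`. -/
theorem result (n : ℕ) :
    (∀ (R : Fin n → Fin n → Prop) (col und : Fin n → Fin n → ℕ), IsOriented R →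
      (∀ x y, und x y = und y x) → Covers R col und → ∀ T : Finset (Finset (Fin n)),
      (∀ s : Finset (Fin n), s.card = 3 → Mono R col und s → s ∈ T) → turan n ≤ T.card) ∧
    ∃ (R : Fin n → Fin n → Prop) (col und : Fin n → Fin n → ℕ) (T : Finset (Finset (Fin n))),
      IsOriented R ∧ (∀ x y, und x y = und y x) ∧ Covers R col und ∧
      (∀ s, s ∈ T ↔ (s.card = 3 ∧ Mono R col und s)) ∧ T.card = turan n := by
  have e : Pool.Agent.N439.CT.turan n = turan n := rfl
  have e' : Pool.Agent.Zk14.ID.Sharp.turan n = turan n := rfl
  have hmem : ∀ (R : Fin n → Fin n → Prop) (col und : Fin n → Fin n → ℕ) (s : Finset (Fin n)),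
      s ∈ Pool.Agent.Zk14.ID.fam R col und ↔ (s.card = 3 ∧ Mono R col und s) := by
    intro R col und s
    rw [Pool.Agent.Zk14.ID.mem_fam, mem_powersetCard]
    unfold Mono
    simp only [subset_univ, true_and]
  have main : ∀ (R : Fin n → Fin n → Prop) (col und : Fin n → Fin n → ℕ), IsOriented R →
      (∀ x y, und x y = und y x) → Covers R col und →
      turan n ≤ (Pool.Agent.Zk14.ID.fam R col und).card := by
    intro R col und hR hu hC
    have h := Pool.Agent.Zk14.ID.mixed (R := R) (col := col) (und := und) hR hu (by
      intro Q hQ
      obtain ⟨s, hs, h3⟩ := hC Q hQ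
      exact ⟨s, hs, (hmem R col und s).2 h3⟩)
    rwa [Fintype.card_fin, e] at h
  refine ⟨fun R col und hR hu hC T hT => (main R col und hR hu hC).trans (card_le_card ?_), ?_⟩
  · intro s hs
    obtain ⟨h3, hs⟩ := (hmem R col und s).1 hs
    exact hT s h3 hs
  · have hC : Covers (Pool.Agent.Zk14.ID.Sharp.tR n) (Pool.Agent.Zk14.ID.Sharp.one n)
        (Pool.Agent.Zk14.ID.Sharp.one n) := by
      intro Q hQ
      obtain ⟨s, hs, h3⟩ := Pool.Agent.Zk14.ID.Sharp.covers n Q hQ
      exact ⟨s, hs, (hmem _ _ _ s).1 h3⟩
    refine ⟨Pool.Agent.Zk14.ID.Sharp.tR n, Pool.Agent.Zk14.ID.Sharp.one n,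
      Pool.Agent.Zk14.ID.Sharp.one n, Pool.Agent.Zk14.ID.fam _ _ _,
      Pool.Agent.Zk14.ID.Sharp.tR_oriented n, fun _ _ => rfl, hC, hmem _ _ _, ?_⟩
    refine le_antisymm ?_ (main _ _ _ (Pool.Agent.Zk14.ID.Sharp.tR_oriented n) (fun _ _ => rfl) hC)
    rw [← e']
    exact Pool.Agent.Zk14.ID.Sharp.fam_card_le n

end Pool.Agent.Results.MP_466853_co.MixedColourings
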