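import Pool.Agent.Zk14.TP.Del
import Pool.Agent.Zk14.TP.Sharp

/-!
# Turán's (3,4)-problem: coverings with a one-way partition into two parts

Let `T` be a 3-graph on `n` vertices such that every four vertices contain a triple of `T`, and let
the vertices be divided into two parts with at least `n/8` vertices each. A vertex `x` is *attached*
to a vertex `y` of the other part if `{x, z, y}` is in `T` for some other vertex `z` of the part of
`x`. A pair of vertices of different parts is *two-way* if each of its vertices is attached to the
other one. Let `b` be the number of two-way pairs. We prove, for every `m ≥ 1`,

  `2 m n³ ≤ 27 m |T| + 800 (m² + b) n²`.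

So Turán's bound `|T| ≥ (2/27) n³ - o(n³)`, i.e. density at least `4/9`, holds for all coverings with
a partition into two parts of at least `n/8` vertices with `o(n²)` two-way pairs (and with the error
`O(n²)` if there are none). Inside the two parts `T` is arbitrary, and the triples which meet both
parts are restricted only by the condition that the attachments go one way. The bound is sharp: in
Turán's construction there are no two-way pairs between the first class and the union of the two
others (second part).

Outline. If `x` is not attached to `y`, draw the arc `x → y`. The outneighbourhoods of the vertices of
a part are nested, and those of two vertices of a missing triple of the part are disjoint. So in a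
missing triple at least two vertices have no outneighbours. Let `E` be the set of the vertices of the
part without outneighbours and `D` the rest of the part; if `E` is not empty, the other part `B` is a
clique. Every missing triple in `E` contains an edge of the link graph of every vertex of `D`. If
`|E| ≤ |D|`, then we can add all the triples inside `E` and remove the triples with one vertex in `D`
and two in `E`; this gives a covering with at most as many triples for which `D`, `E`, `B` are
cliques without two-way pairs between them, and the theorem on these coverings applies. If
`|E| > |D|`, then the missing triples are bounded by Goodman's and de Caen's inequalities, and this is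
compensated by the large outdegrees of the vertices of `B`.
-/

set_option autoImplicit false
open Finset Pool.Agent.Zk14.OneWay

namespace Pool.Agent.Results.MP_466853_co.OneWayBipartition

theorem result :
    -- the inequality for all coverings and all partitions into two parts
    (∀ (n m : ℕ) (T : Finset (Finset (Fin n))) (c : Fin n → Fin 2), Covering T → 1 ≤ m →
      (∀ i, n ≤ 8 * (part c i).card) →
      2 * m * n ^ 3 ≤ 27 * m * T.card + 800 * (m ^ 2 + (twoWay T c).card) * n ^ 2) ∧
    -- Turán's construction
    (∀ s : ℕ, ∃ (T : Finset (Finset (Fin (3 * s)))) (c : Fin (3 * s) → Fin 2), Covering T ∧
      twoWay T c = ∅ ∧ (∀ i, 3 * s ≤ 8 * (part c i).card) ∧ 27 * T.card ≤ 2 * (3 * s) ^ 3) := by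
  refine ⟨fun n m T c hT hm hs => ?_, fun s => ⟨Pool.Agent.Zk14.TP.turan s,
    Pool.Agent.Zk14.TP.t2 s, Pool.Agent.Zk14.TP.turan_cov s, Pool.Agent.Zk14.TP.turan_twoWay s,
    Pool.Agent.Zk14.TP.turan_parts s, Pool.Agent.Zk14.TP.turan_card s⟩⟩
  have h := Pool.Agent.Zk14.TP.final (T := T) (c := c) (m := m) hT hm (fun l => by
    rw [Pool.Agent.Zk14.OW.size_part]
    exact_mod_cast hs l)
  exact_mod_cast h

end Pool.Agent.Results.MP_466853_co.OneWayBipartition
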