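import Pool.Agent.Zk14.OW.Dist
import Pool.Agent.Zk14.OW.Ori

/-!
# Turán's (3,4)-problem: coverings with a one-way partition

Let `T` be a 3-graph on `n` vertices such that every four vertices contain a triple of `T`, and let
the vertices be partitioned into `r` classes. A vertex `x` is *attached* to a vertex `y` of another
class if `{x, z, y}` is in `T` for some other vertex `z` of the class of `x`. A pair of vertices of
different classes is *two-way* if each of its vertices is attached to the other one. We prove

  `10 n³ + 27 |T Δ F| ≤ 135 |T| + 162 q + 342 n b + 95 (r + 1) n²`

for all `T` and all partitions, where `b` is the number of two-way pairs, `q` is the number of the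
triples inside the classes with more than `n/3` vertices which are not in `T`, and `F` is the
Fon-der-Flaass covering of an orientation `R` of the complete multipartite graph with these classes:
the triples inside a class and the triples with a vertex which dominates the other two.

So Turán's bound `|T| ≥ (2/27) n³ - o(n³)`, i.e. density at least `4/9`, holds for all coverings with
a partition into `o(n)` classes without two-way pairs (or with `o(n²)` of them) in which every class
is a clique of `T` or has at most `n/3` vertices, and among them only those of density `4/9 + o(1)`
which are close to Fon-der-Flaass coverings attain it. The triples inside the classes with at most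
`n/3` vertices and the triples which meet three classes are arbitrary; only the triples which meet
exactly two classes are restricted.

The Fon-der-Flaass coverings of the orientations of complete multipartite graphs have no two-way
pairs, and their classes are cliques (second part); they include the examples of Turán, Brown and
Kostochka.

Outline. If `x` is not attached to `y`, draw the arc `x → y`; only the two-way pairs get no arc. Almost
all triples `{x, y, z}` with `x → y`, `x → z` are in `T`, and there is no directed four-cycle between
two classes. So `T` is large if the outdegrees deviate from `n/3`. The outneighbourhoods of the
vertices of a triple which is inside a class but not in `T` are disjoint; an inequality of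
Motzkin–Straus type for triangles bounds the number of these triples of a class with at most `n/3`
vertices by the deviations of the outdegrees. Two cliques with together more than `2 n/3` vertices
force deviations because the orientation between them is nested.
-/

set_option autoImplicit false
open Finset Pool.Agent.Zk14.OneWay

namespace Pool.Agent.Results.MP_466853_co.OneWayPartition

theorem result :
    -- the inequality for all coverings and all partitions
    (∀ (n r : ℕ) (T : Finset (Finset (Fin n))) (c : Fin n → Fin r), Covering T →
      ∃ R : Fin n → Fin n → Prop, IsOrientation c R ∧ (twoWay T c = ∅ → NoFourCycle c R) ∧
        10 * n ^ 3 + 27 * (symmDiff T (triples c R)).card ≤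
          135 * T.card + 162 * (holes T c).card + 342 * n * (twoWay T c).card +
            95 * (r + 1) * n ^ 2) ∧
    -- the coverings given by orientations of complete multipartite graphs
    (∀ (n r : ℕ) (c : Fin n → Fin r) (R : Fin n → Fin n → Prop), IsOrientation c R →
      NoFourCycle c R → Covering (triples c R) ∧ twoWay (triples c R) c = ∅ ∧
      holes (triples c R) c = ∅) :=
  ⟨fun _ _ T c hT => ⟨Pool.Agent.Zk14.OW.ori T c, Pool.Agent.Zk14.OW.ori_orientation T c,
    Pool.Agent.Zk14.OW.ori_noFour hT c, Pool.Agent.Zk14.OW.main hT c⟩,
    fun _ _ c R hR hC => ⟨covering_triples hR hC, twoWay_triples hR, holes_triples c R⟩⟩

end Pool.Agent.Results.MP_466853_co.OneWayPartition
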